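import Pool.Agent.Q227.CD.G4

/-!
# Descent of admissible homomorphisms into the L-group along extensions of coprime degrees

The L-group is `H ⋊[φ] Gal(K̄/K)`, where `H` is a topological group (the points of the dual group over
`ℚ̄_ℓ`) and `φ` the action.  Extensions `F` of `K` are given by the open subgroups `U = Gal(K̄/F)`,
`[F : K]` is the index of `U`; they are contained in the field `L` of the open normal subgroup `N`.
The Satake parameters of `Π` at the places `v` outside a finite set `S` are given by the sets `s v` of
all elements of the L-group above Frobenius elements at `v` whose class is the parameter.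
-/

set_option autoImplicit false

namespace Pool.Agent.Results.MP_666dc0_nt.CoprimeDegreesDescent

open NumberField IsDedekindDomain Pool.Agent.W401.Cheb

variable {K : Type} [Field K] [NumberField K] {H : Type} [Group H]

/-- the L-group -/
abbrev LG (φ : GK K →* MulAut H) : Type := H ⋊[φ] GK K

/-- the inclusion of the dual group -/
noncomputable def inH (φ : GK K →* MulAut H) : H →* LG φ := SemidirectProduct.inl

/-- the canonical section over the Galois group -/
noncomputable def inG (φ : GK K →* MulAut H) : GK K →* LG φ := SemidirectProduct.inr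

/-- the action is continuous, factors through a finite quotient, and is trivial on the inertia groups
at the places outside `S` -/
def GoodAction [TopologicalSpace H] (φ : GK K →* MulAut H) (S : Set (HeightOneSpectrum (𝓞 K))) :
    Prop :=
  IsOpen (φ.ker : Set (GK K)) ∧ (∀ γ, Continuous (φ γ)) ∧ ∀ v ∉ S, ∀ τ, IsInert v τ → φ τ = 1

/-- the sets `s v` are unions of classes: closed under conjugation, and under multiplication by
inertia elements -/
def IsSatake {φ : GK K →* MulAut H} (S : Set (HeightOneSpectrum (𝓞 K)))
    (s : HeightOneSpectrum (𝓞 K) → Set (LG φ)) : Prop :=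
  ∀ v ∉ S, (∀ x ∈ s v, ∀ y, y * x * y⁻¹ ∈ s v) ∧ ∀ x ∈ s v, ∀ τ, IsInert v τ →
    x * inG φ τ ∈ s v

/-- admissible homomorphisms of the subgroup `U`: continuous, and compatible with the projections -/
def Admissible [TopologicalSpace H] {φ : GK K →* MulAut H} {U : Subgroup (GK K)}
    (r : U →* LG φ) : Prop :=
  (∀ u, (r u).right = u) ∧ Continuous fun u => (r u).left

/-- `r` is unramified at the places above the `v` outside `S`, and maps the Frobenius elements at
places of degree one over `v` to the Satake parameter of `Π` at `v` -/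
def Attached {φ : GK K →* MulAut H} {U : Subgroup (GK K)}
    (S : Set (HeightOneSpectrum (𝓞 K))) (s : HeightOneSpectrum (𝓞 K) → Set (LG φ))
    (r : U →* LG φ) : Prop :=
  ∀ v ∉ S, (∀ σ : U, IsInert v (σ : GK K) → r σ = inG φ (σ : GK K)) ∧
    ∀ σ : U, IsFrob v (σ : GK K) → r σ ∈ s v

/-- the centralizer of `r(N)` in the dual group is commutative -/
def CommCent {φ : GK K →* MulAut H} {U : Subgroup (GK K)} (N : Subgroup (GK K))
    (r : U →* LG φ) : Prop :=
  ∀ x y : H, (∀ u : U, (u : GK K) ∈ N → inH φ x * r u = r u * inH φ x) →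
    (∀ u : U, (u : GK K) ∈ N → inH φ y * r u = r u * inH φ y) → x * y = y * x

/-- the homomorphisms are conjugate to each other on the intersections, also after conjugation by
elements `g` of the Galois group -/
def Compatible {φ : GK K →* MulAut H} {ι : Type} {U : ι → Subgroup (GK K)}
    (r : ∀ i, U i →* LG φ) : Prop :=
  ∀ i j (g : GK K), ∃ h : H, ∀ (u : U i) (hu : g * u * g⁻¹ ∈ U j),
    r j ⟨g * u * g⁻¹, hu⟩ = (inH φ h * inG φ g) * r i u * (inH φ h * inG φ g)⁻¹

/-- `R` is admissible and the centralizer of `R(N)` is commutative -/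
def Good [TopologicalSpace H] {φ : GK K →* MulAut H} (N : Subgroup (GK K))
    (R : GK K →* LG φ) : Prop :=
  (∀ g, (R g).right = g) ∧ (Continuous fun g => (R g).left) ∧
    ∀ x y : H, (∀ ν ∈ N, inH φ x * R ν = R ν * inH φ x) →
      (∀ ν ∈ N, inH φ y * R ν = R ν * inH φ y) → x * y = y * x

/-- the restriction of `R` to `U = Gal(K̄/F)` is equivalent to `r` -/
def RestrictsTo {φ : GK K →* MulAut H} (R : GK K →* LG φ) {U : Subgroup (GK K)}
    (r : U →* LG φ) : Prop := ∃ h : H, ∀ u : U, R u = inH φ h * r u * (inH φ h)⁻¹

/-- `R` is the only common extension of the `r i`, up to equivalence -/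
def Unique {φ : GK K →* MulAut H} {ι : Type} {U : ι → Subgroup (GK K)}
    (r : ∀ i, U i →* LG φ) (R : GK K →* LG φ) : Prop :=
  ∀ R' : GK K →* LG φ, (∀ g, (R' g).right = g) → (∀ i, RestrictsTo R' (r i)) →
    ∃ h : H, ∀ g, R' g = inH φ h * R g * (inH φ h)⁻¹

/-- if the greatest common divisor of the degrees of fields `F_i` in `L` is `1`, compatible admissible
homomorphisms `r_i` over the `F_i`, attached to `Π` and with commutative centralizers over `L`, have
a unique common extension `R`; it is unramified outside `S` and has the Satake parameter at all `v`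
outside `S` which have a place of degree one in some `F_i` -/
def CoprimeDescent [TopologicalSpace H] (φ : GK K →* MulAut H) (N : Subgroup (GK K))
    (S : Set (HeightOneSpectrum (𝓞 K))) (s : HeightOneSpectrum (𝓞 K) → Set (LG φ)) : Prop :=
  ∀ (ι : Type) [Nonempty ι] (U : ι → Subgroup (GK K)), (∀ i, N ≤ U i) →
    (∀ d, (∀ i, d ∣ (U i).index) → d = 1) →
    ∀ r : ∀ i, U i →* LG φ, (∀ i, Admissible (r i) ∧ CommCent N (r i) ∧ Attached S s (r i)) →
      Compatible r →
      ∃ R : GK K →* LG φ, Good N R ∧ (∀ i, RestrictsTo R (r i)) ∧ Unique r R ∧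
        ∀ v ∉ S, (∀ τ, IsInert v τ → R τ = inG φ τ) ∧
          ((∃ i, ∃ σ ∈ U i, IsFrob v σ) → ∀ σ, IsFrob v σ → R σ ∈ s v)

/-- Let `F_i` be (not necessarily Galois) extensions of `K` contained in a finite Galois extension
`L`, such that the greatest common divisor of their degrees is `1`.  Compatible admissible
homomorphisms over the `F_i`, attached to `Π` and with commutative centralizers over `L`, are the
restrictions of one admissible homomorphism `R` over `K`, unique up to equivalence; it is unramified
outside `S` and has the Satake parameter of `Π` at the places with a place of degree one in some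
`F_i`. -/
theorem result (K : Type) [Field K] [NumberField K] (H : Type) [Group H] [TopologicalSpace H]
    [IsTopologicalGroup H] (φ : GK K →* MulAut H) (S : Set (HeightOneSpectrum (𝓞 K)))
    (hφ : GoodAction φ S) (s : HeightOneSpectrum (𝓞 K) → Set (LG φ)) (hs : IsSatake S s)
    (N : Subgroup (GK K)) [N.Normal] (hN : IsOpen (N : Set (GK K))) :
    CoprimeDescent φ N S s := by
  intro ι _ U hU hgcd r hr hc
  have hind : ∀ q : ℕ, q.Prime → ∃ i, ¬ q ∣ (U i).index := by
    intro q hq
    by_contra hne
    have h1 : ∀ i, q ∣ (U i).index := by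
      intro i
      by_contra h2
      exact hne ⟨i, h2⟩
    exact hq.one_lt.ne' (hgcd q h1)
  obtain ⟨R, h1, h2, h3, h4, h5, h6⟩ := Q227.CD.G.mainG hφ.1 hφ.2.1 hφ.2.2 hN hU hind hs r
    (fun i => (hr i).1.1) (fun i => (hr i).1.2) (fun i => (hr i).2.1) hc (fun i => (hr i).2.2)
  exact ⟨R, ⟨h1, h2, h5⟩, h3, h4, h6⟩

end Pool.Agent.Results.MP_666dc0_nt.CoprimeDegreesDescent
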