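import Pool.Agent.Q227.AG.G10

/-!
# Galois representations from cyclic extensions of different prime degrees

`K` is a number field, `GK K` its absolute Galois group, `𝕜` an algebraically closed Hausdorff
topological field of characteristic `0`, for instance an algebraic closure of `ℚ_ℓ`.  A cyclic
extension of prime degree is given by a character `χ : GK K →* 𝕜ˣ` with open kernel and of prime
order: `χ.ker` is its absolute Galois group, `res χ.ker R` the restriction of `R`, and `Spl v χ` says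
that `v` splits completely.  `PrimeDegs I`: the extensions in the finite set `I` have pairwise
different prime degrees.  `Cts`: continuous.
`At ρ v M`: the extension is unramified at `v`, `ρ` is unramified above `v`, and the eigenvalues of
the geometric Frobenius elements above `v` are the `r`-th powers of the elements of `M`, `r` the
residue degree.  `URat R v M`: `R`, a representation of `GK K`, is unramified at `v`, and `M` is the
multiset of the eigenvalues of the geometric Frobenius elements.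
`Patches I ρ R`: `R` is semisimple with restrictions `ρ χ`, for `χ` in `I`.
-/

set_option autoImplicit false

namespace Pool.Agent.Results.MP_666dc0_nt.CyclicPatching

open NumberField IsDedekindDomain Polynomial
open Pool.Agent.W401.Cheb Pool.Agent.Q227.AG
open Pool.Agent.Q15.GR (Cts res)

section

variable {K : Type} [Field K] [NumberField K] {𝕜 : Type} [Field 𝕜]

/-- no quotient of two elements of `M` is a primitive root of unity of order the product of the
degrees; or `M` is defined over a number field `L` which is small with respect to the degrees -/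
def Generic [CharZero 𝕜] (I : Finset (GK K →* 𝕜ˣ)) (n : ℕ) (M : Multiset 𝕜) : Prop :=
  (∀ x ∈ M, ∀ y ∈ M, ¬ IsPrimitiveRoot (x / y) (∏ χ ∈ I, orderOf χ)) ∨
    ∃ L : IntermediateField ℚ 𝕜, FiniteDimensional ℚ L ∧
      Module.finrank ℚ L * n ^ 2 < ∏ χ ∈ I, (orderOf χ - 1) ∧
      ∀ k, ((M.map fun a => X - C a).prod).coeff k ∈ L

variable [TopologicalSpace 𝕜] [IsTopologicalRing 𝕜]

/-- semisimple continuous representations of dimension `n` are determined by their restrictions -/
def Determined (I : Finset (GK K →* 𝕜ˣ)) (n : ℕ) : Prop :=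
  ∀ R R' : Representation 𝕜 (GK K) (Fin n → 𝕜), R.IsSemisimpleRepresentation → Cts R → Cts R' →
    Patches I (fun χ => res χ.ker R) R' → Nonempty (Representation.Equiv R' R)

/-- there are compatible semisimple continuous representations of dimension `n` over the extensions
in `I` which are not the restrictions of one representation -/
def Obstructed [CharZero 𝕜] [IsAlgClosed 𝕜] (I : Finset (GK K →* 𝕜ˣ)) (n : ℕ) : Prop :=
  ∃ (D : HeightOneSpectrum (𝓞 K) → Multiset 𝕜)
    (ρ : ∀ χ : GK K →* 𝕜ˣ, Representation 𝕜 χ.ker (Fin n → 𝕜)),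
    (∀ χ ∈ I, (ρ χ).IsSemisimpleRepresentation ∧ Cts (ρ χ) ∧ {v | ¬ At (ρ χ) v (D v)}.Finite) ∧
      ¬ ∃ R, Patches I ρ R

end

theorem result (K : Type) [Field K] [NumberField K] (𝕜 : Type) [Field 𝕜] [CharZero 𝕜]
    [IsAlgClosed 𝕜] [TopologicalSpace 𝕜] [IsTopologicalRing 𝕜] [T2Space 𝕜]
    (I : Finset (GK K →* 𝕜ˣ)) (hI : PrimeDegs I) :
    -- uniqueness: the exact threshold
    (I.Nonempty → ∀ n, 2 * n < 2 ^ I.card ↔ Determined I n) ∧
    (∀ (n : ℕ) (D : HeightOneSpectrum (𝓞 K) → Multiset 𝕜)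
      (ρ : ∀ χ : GK K →* 𝕜ˣ, Representation 𝕜 χ.ker (Fin n → 𝕜)),
      (∀ χ ∈ I, (ρ χ).IsSemisimpleRepresentation ∧ Cts (ρ χ)) →
      -- existence, from the places which split
      ((∀ χ ∈ I, {v | ¬ (Spl v χ → At (ρ χ) v (D v))}.Finite) → (I.card = 2 ∨ n + 2 ≤ I.card) →
        ∃ R, Patches I ρ R ∧ Cts R) ∧
      -- existence, from all places: `n` extensions suffice (`n + 1` if `n ≤ 3`)
      ((∀ χ ∈ I, {v | ¬ At (ρ χ) v (D v)}.Finite) → 1 ≤ n → n ≤ I.card → (n < I.card ∨ 4 ≤ n) →
        ∃ R, Patches I ρ R ∧ Cts R ∧ {v | ¬ URat R v (D v)}.Finite ∧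
          ∀ J ⊆ I, 2 * n < 2 ^ J.card → ∀ v, (∀ χ ∈ J, At (ρ χ) v (D v)) → URat R v (D v)) ∧
      -- local properties of all such `R`
      ∀ R, Patches I ρ R →
        (∀ χ ∈ I, ∀ v, Spl v χ → At (ρ χ) v (D v) → URat R v (D v)) ∧
        (I.card = 2 → ∀ v, (∀ χ ∈ I, At (ρ χ) v (D v)) → Generic I n (D v) → URat R v (D v))) ∧
    -- fewer than `n` extensions do not suffice, if one of them is quadratic
    (3 ≤ I.card → ∀ ψ ∈ I, orderOf ψ = 2 → ∀ ω : GK K →* 𝕜ˣ, IsOpen (ω.ker : Set (GK K)) →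
      orderOf ω = 2 → ω ≠ ψ → ∀ n, I.card < n → Obstructed I n) := by
  refine ⟨fun hne n => unique_iff hI hne n, fun n D ρ hρ => ⟨fun h hcard => ?_, fun h h1 h2 h3 => ?_,
    fun R hR => ⟨fun χ hχ v hs hat => ?_, fun h2 v hv hM => ?_⟩⟩, fun h3 ψ hψ hψ2 ω hω hω2 hne n hn => ?_⟩
  · obtain ⟨R, h1, h2, h3⟩ := split_exists hI hcard (D := D) (fun χ hχ => (hρ χ hχ).1)
      (fun χ hχ => (hρ χ hχ).2)
      (fun χ hχ => (h χ hχ).subset fun v hv hn => hv (splAt_of hn))
    exact ⟨R, ⟨h1, h3⟩, h2⟩
  · obtain ⟨R, h4, h5, h6, h7, h8⟩ := all_exists hI h1 h2 h3 (fun χ hχ => (hρ χ hχ).1)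
      (fun χ hχ => (hρ χ hχ).2) h
    exact ⟨R, ⟨h4, h6⟩, h5, h7, h8⟩
  · obtain ⟨e⟩ := hR.2 χ hχ
    exact urat_of_split e hat.spl hs
  · exact two_local hI h2 hR hv hM
  · exact not_exists hI h3 hψ hψ2 hω hω2 hne hn

end Pool.Agent.Results.MP_666dc0_nt.CyclicPatching
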