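import Pool.Agent.Q15.GRG5

/-!
# Galois representations from quadratic extensions: the exact number of extensions

`K` is a number field; a quadratic extension `E` of `K` is given by its character
`χ : GK K →* ℤˣ` with `IsQuad χ`, and `χ.ker` is the absolute Galois group of `E`.  `Split v χ`,
`Inert v χ`: the place `v` of `K` splits in `E`, is (unramified and) inert in `E`.
`Indep ψ`: no nonempty product of the `ψ k` is trivial.  `Large n S`: the set `S` of quadratic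
characters contains `r` independent ones, or has at least `2 ^ (r - 1)` elements, where
`r = n + 2` (`r = n + 3` if `n = 2` or `n = 4`).
-/

set_option autoImplicit false

namespace Pool.Agent.Results.MP_666dc0_nt.QuadraticPatching

open NumberField IsDedekindDomain
open Pool.Agent.W401.Cheb Pool.Agent.Q15.GRA

section

variable {K : Type} [Field K] [NumberField K] {ℓ : ℕ} [Fact ℓ.Prime] {n : ℕ}

/-- the representation is continuous -/
def IsCont {Δ : Subgroup (GK K)}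
    (ρ : Representation (PadicAlgCl ℓ) Δ (Fin n → PadicAlgCl ℓ)) : Prop :=
  ∀ x, Continuous fun σ => ρ σ x

/-- if `v` splits in `E`, then `ρ`, a representation of the absolute Galois group of `E`, is
unramified above `v`, and `M` is the multiset of the eigenvalues of the geometric Frobenius elements
at the places above `v` -/
def SplitAt {χ : GK K →* ℤˣ}
    (ρ : Representation (PadicAlgCl ℓ) χ.ker (Fin n → PadicAlgCl ℓ))
    (v : HeightOneSpectrum (𝓞 K)) (M : Multiset (PadicAlgCl ℓ)) : Prop :=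
  Split v χ → (∀ σ : χ.ker, IsInert v (σ : GK K) → ρ σ = 1) ∧
    ∀ σ : χ.ker, IsFrob v (σ : GK K) → (ρ σ⁻¹).charpoly.roots = M

/-- if `v` is inert in `E`, then `ρ` is unramified above `v`, and the eigenvalues of the geometric
Frobenius elements at the place above `v` are the squares of the elements of `M` -/
def InertAt {χ : GK K →* ℤˣ}
    (ρ : Representation (PadicAlgCl ℓ) χ.ker (Fin n → PadicAlgCl ℓ))
    (v : HeightOneSpectrum (𝓞 K)) (M : Multiset (PadicAlgCl ℓ)) : Prop :=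
  Inert v χ → (∀ σ : χ.ker, IsInert v (σ : GK K) → ρ σ = 1) ∧
    ∀ τ : GK K, IsFrob v τ → ∀ σ : χ.ker, (σ : GK K) = τ * τ →
      (ρ σ⁻¹).charpoly.roots = M.map fun a => a ^ 2

/-- the restriction to the absolute Galois group of an extension -/
noncomputable def restrict (Δ : Subgroup (GK K))
    (R : Representation (PadicAlgCl ℓ) (GK K) (Fin n → PadicAlgCl ℓ)) :
    Representation (PadicAlgCl ℓ) Δ (Fin n → PadicAlgCl ℓ) := MonoidHom.comp R Δ.subtype

/-- `R` is semisimple and its restrictions are the `ρ χ` -/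
def Restricts (𝓔 : Set (GK K →* ℤˣ))
    (ρ : ∀ χ : GK K →* ℤˣ, Representation (PadicAlgCl ℓ) χ.ker (Fin n → PadicAlgCl ℓ))
    (R : Representation (PadicAlgCl ℓ) (GK K) (Fin n → PadicAlgCl ℓ)) : Prop :=
  R.IsSemisimpleRepresentation ∧
    ∀ χ ∈ 𝓔, Nonempty (Representation.Equiv (restrict χ.ker R) (ρ χ))

/-- the `ρ χ` are continuous, semisimple, and have the Frobenius eigenvalues `D v` at the places
which split, outside the finite sets `S χ` -/
def IsFamily (𝓔 : Set (GK K →* ℤˣ)) (D : HeightOneSpectrum (𝓞 K) → Multiset (PadicAlgCl ℓ))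
    (S : (GK K →* ℤˣ) → Set (HeightOneSpectrum (𝓞 K)))
    (ρ : ∀ χ : GK K →* ℤˣ, Representation (PadicAlgCl ℓ) χ.ker (Fin n → PadicAlgCl ℓ)) : Prop :=
  ∀ χ ∈ 𝓔, (S χ).Finite ∧ (ρ χ).IsSemisimpleRepresentation ∧ IsCont (ρ χ) ∧
    ∀ v ∉ S χ, SplitAt (ρ χ) v (D v)

end

/-- **patching** -/
def Patching (K : Type) [Field K] [NumberField K] (ℓ : ℕ) [Fact ℓ.Prime] : Prop :=
  ∀ (n : ℕ) (𝓔 : Set (GK K →* ℤˣ)), (∀ χ ∈ 𝓔, IsQuad χ) → Large n 𝓔 →
    ∀ (D : HeightOneSpectrum (𝓞 K) → Multiset (PadicAlgCl ℓ))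
      (S : (GK K →* ℤˣ) → Set (HeightOneSpectrum (𝓞 K)))
      (ρ : ∀ χ : GK K →* ℤˣ, Representation (PadicAlgCl ℓ) χ.ker (Fin n → PadicAlgCl ℓ)),
    IsFamily 𝓔 D S ρ →
    ∃ R : Representation (PadicAlgCl ℓ) (GK K) (Fin n → PadicAlgCl ℓ),
      Restricts 𝓔 ρ R ∧ (∀ x, Continuous fun σ => R σ x) ∧
      (∀ χ ∈ 𝓔, ∀ v ∉ S χ, Split v χ →
        (∀ σ, IsInert v σ → R σ = 1) ∧ ∀ σ, IsFrob v σ → (R σ⁻¹).charpoly.roots = D v) ∧
      ∀ R' : Representation (PadicAlgCl ℓ) (GK K) (Fin n → PadicAlgCl ℓ),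
        Restricts 𝓔 ρ R' → Nonempty (Representation.Equiv R' R)

/-- the representations `ρ k` of the absolute Galois groups of the quadratic extensions given by the
`ψ k` are continuous, semisimple and compatible with multisets `D v` outside a finite set of places,
but they are not the restrictions of one semisimple representation -/
def Obstructed (K : Type) [Field K] [NumberField K] (ℓ : ℕ) [Fact ℓ.Prime] (n : ℕ) {m : ℕ}
    (ψ : Fin m → (GK K →* ℤˣ)) : Prop :=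
  ∃ (D : HeightOneSpectrum (𝓞 K) → Multiset (PadicAlgCl ℓ)) (S : Set (HeightOneSpectrum (𝓞 K)))
    (ρ : ∀ k, Representation (PadicAlgCl ℓ) (ψ k).ker (Fin n → PadicAlgCl ℓ)), S.Finite ∧
    (∀ k, (ρ k).IsSemisimpleRepresentation ∧ IsCont (ρ k) ∧
      ∀ v ∉ S, SplitAt (ρ k) v (D v) ∧ InertAt (ρ k) v (D v)) ∧
    ¬ ∃ R : Representation (PadicAlgCl ℓ) (GK K) (Fin n → PadicAlgCl ℓ),
      R.IsSemisimpleRepresentation ∧
      ∀ k, Nonempty (Representation.Equiv (restrict (ψ k).ker R) (ρ k))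

theorem obs {K : Type} [Field K] [NumberField K] {ℓ : ℕ} [Fact ℓ.Prime] {n m : ℕ} (hm : 0 < m)
    {ψ : Fin m → (GK K →* ℤˣ)}
    (h : ∃ (R : Fin m → Representation (PadicAlgCl ℓ) (GK K) (Fin n → PadicAlgCl ℓ))
      (S : Set (HeightOneSpectrum (𝓞 K))), S.Finite ∧
      (∀ k, (R k).IsSemisimpleRepresentation ∧ Pool.Agent.Q15.GR.Cts (R k) ∧
        ∀ v ∉ S, ∀ σ, IsInert v σ → R k σ = 1) ∧
      (∀ k l g, ψ k g = 1 → ψ l g = 1 → (R k).character g = (R l).character g) ∧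
      ¬ ∃ R' : Representation (PadicAlgCl ℓ) (GK K) (Fin n → PadicAlgCl ℓ),
        R'.IsSemisimpleRepresentation ∧
        ∀ k, Nonempty (Representation.Equiv (Pool.Agent.Q15.GR.res (ψ k).ker R')
          (Pool.Agent.Q15.GR.res (ψ k).ker (R k)))) : Obstructed K ℓ n ψ := by
  obtain ⟨R, S, hS, hR, hcomp, hno⟩ := h
  obtain ⟨D, hD⟩ := Pool.Agent.Q15.GRG.bad hm ψ R (fun k => (hR k).1) S
    (fun v hv k => (hR k).2.2 v hv) hcomp
  refine ⟨D, S, fun k => restrict (ψ k).ker (R k), hS, fun k => ⟨?_, ?_, fun v hv => ⟨?_, ?_⟩⟩, hno⟩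
  · exact Pool.Agent.Q15.GR.semi_res (ψ k).ker (hR k).1
  · intro x
    exact ((hR k).2.1 x).comp continuous_subtype_val
  · exact fun hs => ⟨fun σ hσ => (hR k).2.2 v hv σ hσ, (hD k v hv).1 hs⟩
  · exact fun hi => ⟨fun σ hσ => (hR k).2.2 v hv σ hσ, (hD k v hv).2 hi⟩

/-- `σ` is irreducible, continuous and almost everywhere unramified, and `θ k ⊗ σ` is isomorphic to
`σ` for `k ≠ 0, 1` -/
def SelfTwists {K : Type} [Field K] [NumberField K] {ℓ : ℕ} [Fact ℓ.Prime] {n m : ℕ}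
    (σ : Representation (PadicAlgCl ℓ) (GK K) (Fin n → PadicAlgCl ℓ))
    (θ : Fin (m + 2) → (GK K →* ℤˣ)) : Prop :=
  σ.IsIrreducible ∧ (∀ x, Continuous fun g => σ g x) ∧
    (∃ S : Set (HeightOneSpectrum (𝓞 K)), S.Finite ∧ ∀ v ∉ S, ∀ τ, IsInert v τ → σ τ = 1) ∧
    ∀ k, k ≠ 0 → k ≠ 1 → ∀ g, θ k g ≠ 1 → LinearMap.trace _ _ (σ g) = 0

theorem result (K : Type) [Field K] [NumberField K] (ℓ : ℕ) [Fact ℓ.Prime] :
    Patching K ℓ ∧
    -- `n + 1` independent quadratic extensions never suffice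
    (∀ n : ℕ, 2 ≤ n → ∀ ψ : Fin (n + 1) → (GK K →* ℤˣ), (∀ k, IsQuad (ψ k)) → Indep ψ →
      Obstructed K ℓ n ψ) ∧
    -- in dimension `n = m + 1`, `n + 2` do not always suffice if there is an irreducible
    -- representation with `n` independent quadratic self-twists
    (∀ (m : ℕ) (σ : Representation (PadicAlgCl ℓ) (GK K) (Fin (m + 1) → PadicAlgCl ℓ))
      (θ : Fin (m + 3) → (GK K →* ℤˣ)), (∀ k, IsOpen ((θ k).ker : Set (GK K))) → Indep θ →
      SelfTwists σ θ →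
      ∃ ψ : Fin (m + 3) → (GK K →* ℤˣ), (∀ k, IsQuad (ψ k)) ∧ Indep ψ ∧
        Obstructed K ℓ (m + 1) ψ) := by
  refine ⟨?_, ?_, ?_⟩
  · intro n 𝓔 hE hL D S ρ hρ
    obtain ⟨R, h1, h2, h3, h4, h5⟩ := Pool.Agent.Q15.GRG.galois n 𝓔 hE hL D ρ S
      (fun χ hχ => (hρ χ hχ).1)
      (fun χ hχ => (hρ χ hχ).2.1) (fun χ hχ => (hρ χ hχ).2.2.1)
      (fun χ hχ v hv => (hρ χ hχ).2.2.2 v hv)
    exact ⟨R, ⟨h1, h3⟩, h2, h4, fun R' hR' => h5 R' hR'.1 hR'.2⟩
  · intro n hn ψ hψ hind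
    exact obs (Nat.succ_pos n) (Pool.Agent.Q15.GRG.sharp hn ψ hψ hind)
  · rintro m σ θ hθ hind ⟨hσ, hcts, ⟨S, hS, hur⟩, hself⟩
    obtain ⟨ψ, h1, h2, h3⟩ := Pool.Agent.Q15.GRG.sharp2 hσ hcts hS hur θ hθ hind hself
    exact ⟨ψ, h1, h2, obs (Nat.succ_pos _) h3⟩

end Pool.Agent.Results.MP_666dc0_nt.QuadraticPatching
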